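import Pool.Agent.X240.Gen.Final
import Pool.Agent.Y638.RF.NetZT
import Pool.Agent.Y638.RF.Sum

set_option autoImplicit false

/-! # Triangles of weight zero and real programs -/

namespace Pool.Agent.X240.ZT

open Finset
open Pool.Agent.TH697.Form (IsProb)
open Pool.Agent.TH697.Row (ApproximatesOn)
open Pool.Agent.Y638.RF
open Pool.Agent.Y638.RF.ZT

variable {n c w : ℕ}

theorem program_bound (hn : 2048 ≤ n) (hw : 1 ≤ w) {Ω : Type} [Fintype Ω]
    (μ : Ω → ℝ) (hμ : IsProb μ) (s : ℕ)
    (B : Ω → Program (Fin 3 × Fin n × Fin n) (fun _ => ℤ) w (2 ^ c) s)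
    (hB : ApproximatesOn μ (fun ω => (B ω).eval) InRange zeroTri) :
    (n : ℝ) ^ 3 ≤ 1900 * w * (c * w + Real.logb 2 n) * s := by
  have h := Pool.Agent.X240.Gen.rf_program_log (n := n) hw μ hμ s B hB (I := first n)
    (T := Fin n) (fun e he => by rw [Fintype.card_fin]; exact asks_first e he) hn
    (by rw [card_first]) (by rw [Fintype.card_fin]) (by rw [Fintype.card_fin]; omega)
  rw [card_first, Fintype.card_fin] at h
  push_cast at h
  calc (n : ℝ) ^ 3 = (n : ℝ) ^ 2 * n := by ring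
    _ ≤ _ := h

/-- exhaustive search -/
theorem upper (n w q : ℕ) : ∃ F : Fml (Fin 3 × Fin n × Fin n) (fun _ => ℤ) w q,
    F.size = 6 * n ^ 3 ∧ ∀ x, F.accepts x = zeroTri x := by
  obtain ⟨F, h1, h2⟩ := exists_or (w := w) (q := q) (D := fun _ : Fin 3 × Fin n × Fin n => ℤ)
    (fun p : Fin n × Fin n × Fin n =>
      Fml.pos (.add (.const 1) (.mul (.const (-1)) (.mul
        (.add (.item (0, p.1, p.2.1) (fun d => (d : ℝ)))
          (.add (.item (1, p.2.1, p.2.2) (fun d => (d : ℝ)))
            (.item (2, p.1, p.2.2) (fun d => (d : ℝ)))))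
        (.add (.item (0, p.1, p.2.1) (fun d => (d : ℝ)))
          (.add (.item (1, p.2.1, p.2.2) (fun d => (d : ℝ)))
            (.item (2, p.1, p.2.2) (fun d => (d : ℝ)))))))))
    (fun x p => x (0, p.1, p.2.1) + x (1, p.2.1, p.2.2) + x (2, p.1, p.2.2) = 0)
    (fun x p => by
      simp only [Fml.eval]
      split_ifs <;> simp)
    (fun x p => by
      simp only [Fml.eval]
      have e2 : (0 : ℝ) < 1 + -1 * (((x (0, p.1, p.2.1) : ℝ) + ((x (1, p.2.1, p.2.2) : ℝ) +
          (x (2, p.1, p.2.2) : ℝ))) * ((x (0, p.1, p.2.1) : ℝ) + ((x (1, p.2.1, p.2.2) : ℝ) +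
          (x (2, p.1, p.2.2) : ℝ)))) ↔
          x (0, p.1, p.2.1) + x (1, p.2.1, p.2.2) + x (2, p.1, p.2.2) = 0 := by
        obtain ⟨u, hu⟩ : ∃ u : ℤ, u = x (0, p.1, p.2.1) + x (1, p.2.1, p.2.2) +
          x (2, p.1, p.2.2) := ⟨_, rfl⟩
        have e : (x (0, p.1, p.2.1) : ℝ) + ((x (1, p.2.1, p.2.2) : ℝ) +
            (x (2, p.1, p.2.2) : ℝ)) = (u : ℝ) := by
          rw [hu]
          push_cast
          ring
        rw [e, ← hu]
        constructor
        · intro h
          by_contra hne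
          have h3 : (1 : ℤ) ≤ u * u := by
            rcases lt_or_gt_of_ne hne with h4 | h4 <;> nlinarith
          have h5 : (1 : ℝ) ≤ (u : ℝ) * u := by exact_mod_cast h3
          linarith
        · rintro rfl
          simp
      rw [← e2]
      split_ifs with h
      · exact iff_of_true rfl h
      · exact iff_of_false (by norm_num) h)
    zeroTri (fun x => by
      unfold zeroTri
      rw [decide_eq_true_iff]
      constructor
      · rintro ⟨i, j, k, h⟩
        exact ⟨(i, j, k), h⟩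
      · rintro ⟨p, h⟩
        exact ⟨p.1, p.2.1, p.2.2, h⟩)
  refine ⟨F, ?_, h2⟩
  rw [h1]
  simp only [Fml.size, sum_const, card_univ, Fintype.card_prod, Fintype.card_fin, smul_eq_mul]
  ring

end Pool.Agent.X240.ZT
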